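import Mathlib
import Pool.Agent.W307.RG.Bin

/-!
# The average rank in the families of elliptic curves given by split binary forms

Let `n` be even, let `l k i` (`k = 0, 1, 2`, `i = 1, ..., n`) be pairwise non-proportional linear
forms in `u, v` with integer coefficients, let `m k i` be odd, and let
`F_k = a_k ∏_i (l k i) ^ (m k i)` be binary forms with `F_0 - F_1 = F_2`. The curves
`E : y² = x (x - F_0 (u, v)) (x - F_1 (u, v))` are the fibres at `t = u / v` of an elliptic surface
with full `2`-torsion over `ℚ(t)`. We show that the average of `2 ^ rank` over the coprime pairs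
`(u, v)` in squares of side `X` is bounded, uniformly in the square, if the coordinates of the square
are bounded by a power of `X`.

For example, if `p, q, r` are linear forms such that `p ± q`, `q ± r`, `r ± p` are pairwise
non-proportional, the curve `y² = (x + p²) (x + q²) (x + r²)` with the point `(0, p q r)` is of this
type after the substitution `x ↦ x - p²` (`n = 2`, `F_0 = p² - q²`, `F_1 = p² - r²`,
`F_2 = r² - q²`, all `m = 1`).
-/

namespace Pool.Agent.Results.MP_788af2_nt.BinaryFormFamilies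

open Finset

/-- the curve `y² = x (x - A) (x - B)` -/
def E (A B : ℤ) : WeierstrassCurve ℚ := ⟨0, -((A : ℚ) + B), 0, (A : ℚ) * B, 0⟩

/-- the value at `(u, v)` of the binary form `F_k = a_k ∏_i (l k i) ^ (m k i)`, where
`l (k, i) = (α, β)` stands for the linear form `α u + β v` -/
def F {n : ℕ} (l : Fin 3 × Fin n → ℤ × ℤ) (m : Fin 3 × Fin n → ℕ) (a : Fin 3 → ℤ) (k : Fin 3)
    (u v : ℤ) : ℤ :=
  a k * ∏ i : Fin n, ((l (k, i)).1 * u + (l (k, i)).2 * v) ^ m (k, i)

open Classical in
/-- **Theorem.** Let `n` be even, `l` pairwise non-proportional linear forms, `m` odd exponents, and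
`F_0 - F_1 = F_2`. For every `L` there is a constant `C` such that for every `X ≥ 1` and all
`|U|, |V| ≤ X ^ L` the sum of `2 ^ (rank E(ℚ))` over the coprime pairs `(u, v)` with
`U < u ≤ U + X`, `V < v ≤ V + X` and `F_k (u, v) ≠ 0` is at most `C X²`. -/
theorem result (n : ℕ) (hn : Even n) (l : Fin 3 × Fin n → ℤ × ℤ) (m : Fin 3 × Fin n → ℕ)
    (hm : ∀ j, Odd (m j)) (a : Fin 3 → ℤ) (ha : ∀ k, a k ≠ 0)
    (hl : ∀ i j, i ≠ j → (l i).1 * (l j).2 ≠ (l j).1 * (l i).2)
    (hF : ∀ u v : ℤ, F l m a 0 u v - F l m a 1 u v = F l m a 2 u v) (L : ℕ) :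
    ∃ C : ℝ, ∀ (X : ℕ) (U V : ℤ), 1 ≤ X → U.natAbs ≤ X ^ L → V.natAbs ≤ X ^ L →
      ∑ t ∈ (Ioc U (U + X) ×ˢ Ioc V (V + X)).filter (fun t : ℤ × ℤ => IsCoprime t.1 t.2 ∧
        ∀ k, F l m a k t.1 t.2 ≠ 0),
        (2 : ℝ) ^ Module.finrank ℤ
          (E (F l m a 0 t.1 t.2) (F l m a 1 t.1 t.2)).toAffine.Point ≤ C * (X : ℝ) ^ 2 :=
  Pool.Agent.W307.RG.bin hn l m hm a ha hl hF L

end Pool.Agent.Results.MP_788af2_nt.BinaryFormFamilies
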